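import Mathlib
import Pool.Agent.TH15.MoufangHaar.Near
import Pool.Agent.TH15.MoufangHaar.Conn

set_option autoImplicit false

/-!
# Haar integral on compact Moufang loops: reduction to arcs of closed normal subloops

The definition `ClosedNormal` (closed normal subloop) used in the statement is in
`Pool/Agent/TH15/MoufangHaar/Defs.lean`.
-/

namespace Pool.Agent.Results.MP_fd6bc6_al.NormalComponent

open Topology Set
open TopologicalSpace (Compacts)
open Pool.Agent.Helper974.Moufang (IsMoufang)
open Pool.Agent.TH15.MoufangHaar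

universe u

/-- Let `L` be a compact Moufang loop, and consider its closed normal subloops as points of the hyperspace
of compact subsets of `L` (Vietoris topology). The connected component of the trivial subloop `{e}` in this
space has a largest element `M`; `M` is a connected set; if `M ≠ {e}`, then every neighbourhood of `e`
contains a nontrivial connected closed normal subloop of `L`; and there is a normalised positive linear
functional on `C(L)` which is invariant under all left and right translations on the functions constant on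
the cosets `x M` (an invariant integral on `L / M`). So `L` has an invariant integral if `M = {e}`, for
example if `L` has no small nontrivial connected closed normal subloops. -/
theorem result (L : Type u) [TopologicalSpace L] [CompactSpace L] [T2Space L]
    (mul ldiv rdiv : L → L → L) (e : L)
    (h1 : ∀ x, mul e x = x) (h2 : ∀ x, mul x e = x)
    (h3 : ∀ x y, mul x (ldiv x y) = y) (h4 : ∀ x y, ldiv x (mul x y) = y)
    (h5 : ∀ x y, mul (rdiv y x) x = y) (h6 : ∀ x y, rdiv (mul y x) x = y)
    (h7 : ∀ x y z, mul z (mul x (mul z y)) = mul (mul (mul z x) z) y)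
    (hmul : Continuous (fun p : L × L => mul p.1 p.2))
    (hldiv : Continuous (fun p : L × L => ldiv p.1 p.2))
    (hrdiv : Continuous (fun p : L × L => rdiv p.1 p.2)) :
    ∃ M : Compacts L,
      IsGreatest (connectedComponentIn {N : Compacts L | ClosedNormal mul ldiv e (N : Set L)} {e}) M ∧
      IsConnected (M : Set L) ∧
      ((M : Set L) ≠ {e} → ∀ V ∈ 𝓝 e, ∃ N : Set L, ClosedNormal mul ldiv e N ∧ IsConnected N ∧
        N ⊆ V ∧ N ≠ {e}) ∧
      ∃ I : C(L, ℝ) →ₗ[ℝ] ℝ, I 1 = 1 ∧ (∀ f : C(L, ℝ), (∀ x, 0 ≤ f x) → 0 ≤ I f) ∧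
        ∀ f : C(L, ℝ), (∀ x, ∀ m ∈ M, f (mul x m) = f x) →
          (∀ (a : L) (g : C(L, ℝ)), (∀ x, g x = f (mul a x)) → I g = I f) ∧
          (∀ (a : L) (g : C(L, ℝ)), (∀ x, g x = f (mul x a)) → I g = I f) := by
  have h : IsMoufang mul ldiv rdiv e := ⟨h1, h2, h3, h4, h5, h6, h7⟩
  obtain ⟨M, hM, hMt, hMc⟩ := XC_top h hmul hldiv hrdiv
  obtain ⟨P, ⟨p1, p2, p3, p4⟩, hP⟩ := near_state h hmul hldiv hrdiv (M := (M : Set L))
    (iso_near h hmul hldiv hrdiv hM hMt)
  refine ⟨M, ⟨hM, fun K hK => hMt K hK⟩, hMc, ?_, ?_⟩
  · intro hne V hV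
    by_contra hcon
    push Not at hcon
    exact hne (top_triv h hmul hldiv hrdiv hM hMt hMc ⟨V, hV, hcon⟩)
  · refine ⟨{ toFun := P, map_add' := p1, map_smul' := fun c f => by rw [p2]; rfl }, p3, p4, ?_⟩
    intro f hf
    exact ⟨fun a g hg => hP f hf a g (Or.inl hg), fun a g hg => hP f hf a g (Or.inr hg)⟩

end Pool.Agent.Results.MP_fd6bc6_al.NormalComponent
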